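import Pool.Agent.MP54cd88.Defs
import Pool.Agent.MP54cd88.Proof

open Pool.Agent.MP54cd88

/-- There is a maximal subalgebra of the Borel algebra of the Cantor space with property (T)
that fails the Grothendieck property. -/
theorem Pool.Agent.Results.MP_54cd88_an.MaximalTNotGrothendieck.result :
    ∃ B : BooleanSubalgebra (Set (ℕ → Bool)),
      Maximal IsTAlgebra B ∧ ¬ HasGrothendieckProperty B :=
  Pool.Agent.MP54cd88.main
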